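import Pool.Agent.N414.CGProof

/-!
# The fixed point property does not imply collapsing iterated clique graphs
-/

set_option autoImplicit false

namespace Pool.Agent.Results.MP_c7efa6_co.FppNotCollapsing

open Pool.Agent.N414.CG

/-- There is a finite nonempty ordered set with the fixed point property such that each iterated
clique graph of its comparability graph has at least two vertices. -/
theorem result : ∃ (P : Type) (_ : PartialOrder P), Finite P ∧ Nonempty P ∧
    (∀ f : P →o P, ∃ x, f x = x) ∧
    ∀ n : ℕ, 2 ≤ Nat.card (K^[n] ⟨P, comparabilityGraph P⟩).V :=
  main

end Pool.Agent.Results.MP_c7efa6_co.FppNotCollapsing
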